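import Pool.Agent.Y481.DX.Defs
import Pool.Agent.Y448.PH.AxpC
import Pool.Agent.Y484.DR.Trp
import Pool.Agent.Y317.DR.Exp
import Pool.Agent.Y407.DR.Exd
import Pool.Agent.Y624.DR.Tpl
import Pool.Agent.Y884.DR.JpdCnd
import Pool.Agent.Y941.PH.TR3

/-!
# The exact formula for the ring of trees with its axis (tasks AXPD and SCA of project DX)
-/

set_option autoImplicit false

namespace Pool.Agent.Y100.DX

open Finset Filter Topology Matrix
open Pool.Agent.Y472
open Pool.Agent.Y481.DR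
open Pool.Agent.Y481.DX
open Pool.Agent.W711.HT hiding XX
open Pool.Agent.TH563.UV (Tb op kb)
open Pool.Agent.W719.AR (kp)
open Pool.Agent.Y482.Ph (dl3)
open Pool.Agent.H550R3.Jones (crossP crossN gen rep tail)
open Pool.Agent.Y448.CB (trace_split hm3_mul hm3_fullt hat_hom gd3_fullt)
open Pool.Agent.Y317.DR (pls vls trP_pls Te He trP_low MAe MBe He_zero Te_zero Te_diff He_diff CC
  c_sum c_mul3 c_fullt c_opP ev_list)
open Pool.Agent.Y967.CB (chi kap chi_zero chi_deriv ta_eq ta_eq' pI_high ph_eq ph_eq' kap_diff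
  tendsto_real vN_ne)
open scoped Real

/-! ### SCA -/

/-- SCA -/
theorem t_sca : S_SCA := by
  intro N ls e m _ hl
  unfold EA
  rw [Finset.mul_sum]
  refine Finset.sum_congr rfl fun p _ => ?_
  rw [Pool.Agent.Y407.DR.TV_scl N ls e hl]
  ring

/-! ### The generic trace -/

/-- the full trace of the operator -/
noncomputable def TP (N : ℕ) (w l : ℂ) (m : ℤ) (ps : List (Polynomial ℂ × Polynomial ℂ)) : ℂ :=
  ∑ x ∈ range N, ∑ y ∈ range N, ∑ z ∈ range N, (fullt w l m * opP w l ps) (dl3 x y z) x y z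

theorem c_TP {w : ℂ} (hw : w ≠ 0) (N : ℕ) (m : ℤ) (ps : List (Polynomial ℂ × Polynomial ℂ)) :
    ContinuousAt (fun l => TP N w l m ps) (-1) := by
  refine c_sum N (fun x l => ∑ y ∈ range N, ∑ z ∈ range N,
    (fullt w l m * opP w l ps) (dl3 x y z) x y z) fun x => ?_
  refine c_sum N (fun y l => ∑ z ∈ range N,
    (fullt w l m * opP w l ps) (dl3 x y z) x y z) fun y => ?_
  refine c_sum N (fun z l =>
    (fullt w l m * opP w l ps) (dl3 x y z) x y z) fun z => ?_
  exact c_mul3 (c_fullt hw m) (c_opP hw ps) (fun _ => dl3 x y z)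
    (fun _ _ _ => continuousAt_const) x y z

/-- the generic trace on three strands -/
theorem generic {N : ℕ} {w l : ℂ} (hw : Rt N w) (hl : Gl l)
    (ps : List (Polynomial ℂ × Polynomial ℂ)) (m : ℤ) :
    TP N w l m ps = N * ∑ D ∈ range (2 * N - 1), ta w l D ^ m * trP N w l ps D := by
  have hw0 := Pool.Agent.Y448.CB.rt_ne hw
  have gX : Gd3 N w l (fullt w l m * opP w l ps) :=
    Pool.Agent.Y448.CB.gd3_mul (gd3_fullt Pool.Agent.Y807.CB.sig1 Pool.Agent.Y807.CB.sig2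
      Pool.Agent.Y807.CB.sigt Pool.Agent.Y317.CB.gd3 hw hw0 hl.ne m)
      (Pool.Agent.Y484.DR.gd3_opP hw hl.ne ps)
  have ht := trace_split (hat w l (fullt w l m * opP w l ps)) (fun _ => 1)
    (fun D => ta w l D ^ m) (fun D => Pool.Agent.Y484.DR.PMP N w l D ps)
    (Pool.Agent.Y833.CB.basf N w l hw hl)
    (fun D i hi => Pool.Agent.Y484.DR.act_allP hw hl D ps m i hi)
  unfold TP
  rw [Pool.Agent.Y941.PH.tr3 N w l hw hl _ gX
    (fun m' D => hat_hom w l (hm3_mul (hm3_fullt w l m)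
      (Pool.Agent.Y484.DR.hm3_opP w l ps)) m' D)]
  congr 1
  simp only [one_mul] at ht
  rw [ht]
  rfl

/-- the generic sum in terms of the continuation -/
theorem sumA_eq (N : ℕ) (hN : 2 ≤ N) (G : PV → ℕ → ℕ → ℂ → ℂ) (ls : List (PV × PV)) (m : ℤ)
    (ε : ℂ)
    (hG : ∀ x ∈ ls, ∀ i j : ℕ, i ≤ j → j < N →
      G x.1 i j ε = gdP (vN N) (-Complex.exp ε) x.1.1 i j ∧
      G x.2 i j ε = gdP (vN N) (-Complex.exp ε) x.2.1 i j) :
    ∑ D ∈ range (2 * N - 1), ta (vN N) (-Complex.exp ε) D ^ m *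
        trP N (vN N) (-Complex.exp ε) (pls ls) D =
      kap N m ε * ∑ p ∈ range N, Ea (2 * m) N (chi N p ε) * (Te N G ls ε (chi N p ε) +
        He N G ls p ε (chi N p ε) * (Complex.exp (-6 * m * N * ε) - 1)) := by
  have hMA : ∀ x ∈ ls, MAP N (vN N) (-Complex.exp ε) x.1.1 = MAe N G ε x.1 := by
    intro x hx
    funext i j
    show (if j ≤ i then gdP (vN N) (-Complex.exp ε) x.1.1 j i else 0) = if j ≤ i then _ else 0
    by_cases h : j ≤ i
    · rw [if_pos h, if_pos h, (hG x hx j i h i.2).1]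
    · rw [if_neg h, if_neg h]
  have hMB : ∀ D p : ℕ, D + 1 + p = N → ∀ x ∈ ls,
      MBP N (vN N) (-Complex.exp ε) D x.2.1 = MBe N G ε (chi N p ε) x.2 := by
    intro D p hD x hx
    funext i j
    show (if i ≤ j then _ else 0) = if i ≤ j then _ else 0
    by_cases h : i ≤ j
    · rw [if_pos h, if_pos h, (hG x hx i j h j.2).2]
      congr 1
      exact Finset.prod_congr rfl fun t _ => ph_eq N D p t hN hD ε
    · rw [if_neg h, if_neg h]
  have hMB' : ∀ D p : ℕ, D + 1 + p = N → ∀ x ∈ ls,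
      MBP N (vN N) (-Complex.exp ε) (N + D) x.2.1 = MBe N G ε (chi N p ε) x.2 := by
    intro D p hD x hx
    funext i j
    show (if i ≤ j then _ else 0) = if i ≤ j then _ else 0
    by_cases h : i ≤ j
    · rw [if_pos h, if_pos h, (hG x hx i j h j.2).2]
      congr 1
      exact Finset.prod_congr rfl fun t _ => ph_eq' N D p t hN hD ε
    · rw [if_neg h, if_neg h]
  have hlow : ∀ D p : ℕ, D + 1 + p = N → trP N (vN N) (-Complex.exp ε) (pls ls) D =
      Te N G ls ε (chi N p ε) - He N G ls p ε (chi N p ε) := by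
    intro D p hD
    have k1 : (ls.map fun x => MAP N (vN N) (-Complex.exp ε) x.1.1 *
        MBP N (vN N) (-Complex.exp ε) D x.2.1) =
        ls.map fun x => MAe N G ε x.1 * MBe N G ε (chi N p ε) x.2 :=
      List.map_congr_left fun x hx => by rw [hMA x hx, hMB D p hD x hx]
    have k2 : (ls.map fun x => MAP N (vN N) (-Complex.exp ε) x.1.1 * pH N p *
        MBP N (vN N) (-Complex.exp ε) D x.2.1 * pH N p) =
        ls.map fun x => MAe N G ε x.1 * pH N p * MBe N G ε (chi N p ε) x.2 * pH N p :=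
      List.map_congr_left fun x hx => by rw [hMA x hx, hMB D p hD x hx]
    rw [trP_low N D p hD, Te, He, k1, k2]
  have hhigh : ∀ D p : ℕ, D + 1 + p = N → trP N (vN N) (-Complex.exp ε) (pls ls) (N + D) =
      He N G ls p ε (chi N p ε) := by
    intro D p hD
    have k2 : (ls.map fun x => MAP N (vN N) (-Complex.exp ε) x.1.1 * pH N p *
        MBP N (vN N) (-Complex.exp ε) (N + D) x.2.1 * pH N p) =
        ls.map fun x => MAe N G ε x.1 * pH N p * MBe N G ε (chi N p ε) x.2 * pH N p :=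
      List.map_congr_left fun x hx => by rw [hMA x hx, hMB' D p hD x hx]
    rw [trP_pls, He, pI_high N D p hD, k2]
  have e1 : 2 * N - 1 = N + (N - 1) := by omega
  rw [e1, Finset.sum_range_add]
  have hlow' : ∑ D ∈ range N, ta (vN N) (-Complex.exp ε) D ^ m *
        trP N (vN N) (-Complex.exp ε) (pls ls) D =
      ∑ p ∈ range N, (kap N m ε * Ea (2 * m) N (chi N p ε)) *
          (Te N G ls ε (chi N p ε) - He N G ls p ε (chi N p ε)) := by
    rw [← Finset.sum_range_reflect]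
    refine Finset.sum_congr rfl fun p hp => ?_
    have hp' := Finset.mem_range.mp hp
    have hD : (N - 1 - p) + 1 + p = N := by omega
    rw [ta_eq N _ p hN hD, hlow _ p hD]
  have hhigh' : ∑ D ∈ range (N - 1), ta (vN N) (-Complex.exp ε) (N + D) ^ m *
        trP N (vN N) (-Complex.exp ε) (pls ls) (N + D) =
      ∑ p ∈ range N, (kap N m ε * Ea (2 * m) N (chi N p ε) * Complex.exp (-6 * m * N * ε)) *
          He N G ls p ε (chi N p ε) := by
    have e2 : ∑ p ∈ range N,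
        (kap N m ε * Ea (2 * m) N (chi N p ε) * Complex.exp (-6 * m * N * ε)) *
          He N G ls p ε (chi N p ε) =
        ∑ p ∈ range (N - 1),
        (kap N m ε * Ea (2 * m) N (chi N (p + 1) ε) * Complex.exp (-6 * m * N * ε)) *
          He N G ls (p + 1) ε (chi N (p + 1) ε) := by
      have : N = (N - 1) + 1 := by omega
      conv_lhs => rw [this, Finset.sum_range_succ']
      rw [← this, He_zero]
      simp
    rw [e2, ← Finset.sum_range_reflect]
    refine Finset.sum_congr rfl fun p hp => ?_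
    have hp' := Finset.mem_range.mp hp
    have hD : (N - 1 - 1 - p) + 1 + (p + 1) = N := by omega
    rw [ta_eq' N _ (p + 1) hN hD, hhigh _ (p + 1) hD]
  rw [hlow', hhigh', ← Finset.sum_add_distrib, Finset.mul_sum]
  refine Finset.sum_congr rfl fun p _ => ?_
  ring

/-- continuity of the right side -/
theorem right_cont {N : ℕ} {G : PV → ℕ → ℕ → ℂ → ℂ}
    (hGd : ∀ a i j, i ≤ j → j < N → DifferentiableAt ℂ (G a i j) 0) (ls : List (PV × PV))
    (m : ℤ) :
    ContinuousAt (fun ε => (N : ℂ) * (kap N m ε * ∑ p ∈ range N, Ea (2 * m) N (chi N p ε) *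
    (Te N G ls ε (chi N p ε) +
        He N G ls p ε (chi N p ε) * (Complex.exp (-6 * m * N * ε) - 1)))) 0 := by
  have hchi : ∀ p : ℕ, ContinuousAt (chi N p) 0 := fun p => (chi_deriv N p).continuousAt
  refine continuousAt_const.mul ((kap_diff N m).continuousAt.mul ?_)
  refine tendsto_finsetSum _ fun p _ => ?_
  have hT : ContinuousAt (fun ε : ℂ => Te N G ls ε (chi N p ε)) 0 :=
    Pool.Agent.Y448.PH.cont_pair (fun x : ℂ × ℂ => Te N G ls x.1 x.2) (chi N p) (hchi p)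
      (Te_diff hGd ls (chi N p 0)).continuousAt
  have hH : ContinuousAt (fun ε : ℂ => He N G ls p ε (chi N p ε)) 0 :=
    Pool.Agent.Y448.PH.cont_pair (fun x : ℂ × ℂ => He N G ls p x.1 x.2) (chi N p) (hchi p)
      (He_diff hGd ls p (chi N p 0)).continuousAt
  have hE : ContinuousAt (fun ε : ℂ => Ea (2 * m) N (chi N p ε)) 0 := by
    have h1 : Continuous (Ea (2 * m) N) := by
      unfold Ea
      fun_prop
    exact ContinuousAt.comp (g := Ea (2 * m) N) (f := chi N p) h1.continuousAt (hchi p)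
  have hx : ContinuousAt (fun ε : ℂ => Complex.exp (-6 * m * N * ε) - 1) 0 := by fun_prop
  exact hE.mul (hT.add (hH.mul hx))

/-- the full trace at the root of unity -/
theorem axP (N : ℕ) (ls : List (PV × PV)) (m : ℤ) (hN : 2 ≤ N)
    (hGD : ∀ d ∈ ls, GDP N d.1.1 (fun i j => d.1.2.2 * cV N d.1.2.1 i j) ∧
      GDP N d.2.1 (fun i j => d.2.2.2 * cV N d.2.2.1 i j)) :
    TP N (vN N) (-1) m (pls ls) = N * (vN N ^ (4 * m) * (CC ls * EA N (vls ls) m)) := by
  have hG' : ∀ (a : PV) (i j : ℕ), ∃ G : ℂ → ℂ, (i ≤ j → j < N → (DifferentiableAt ℂ G 0 ∧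
      G 0 = a.2.2 * cV N a.2.1 i j)) ∧
      (GDP N a.1 (fun i j => a.2.2 * cV N a.2.1 i j) → i ≤ j → j < N →
        ∀ᶠ ε in 𝓝[≠] (0 : ℂ), G ε = gdP (vN N) (-Complex.exp ε) a.1 i j) := by
    intro a i j
    by_cases h : (i ≤ j ∧ j < N) ∧ GDP N a.1 (fun i j => a.2.2 * cV N a.2.1 i j)
    · obtain ⟨G, h1, h2, h3⟩ := h.2 i j h.1.1 h.1.2
      exact ⟨G, fun _ _ => ⟨h1, h2⟩, fun _ _ _ => h3⟩
    · refine ⟨fun _ => a.2.2 * cV N a.2.1 i j, fun _ _ => ⟨differentiableAt_const _, rfl⟩,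
        fun h1 h2 h3 => absurd ⟨⟨h2, h3⟩, h1⟩ h⟩
  choose G hGs hGe using hG'
  have hGd : ∀ a i j, i ≤ j → j < N → DifferentiableAt ℂ (G a i j) 0 :=
    fun a i j h1 h2 => (hGs a i j h1 h2).1
  have hG0 : ∀ a i j, i ≤ j → j < N → G a i j 0 = a.2.2 * cV N a.2.1 i j :=
    fun a i j h1 h2 => (hGs a i j h1 h2).2
  have hRt : Rt N (vN N) := Pool.Agent.Y195.CB.rtv N hN
  have hv : vN N ≠ 0 := vN_ne N
  -- the left side
  have hJ : Tendsto (fun ε : ℂ => TP N (vN N) (-Complex.exp ε) m (pls ls)) (𝓝 0)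
      (𝓝 (TP N (vN N) (-1) m (pls ls))) := by
    have h1 : Tendsto (fun ε : ℂ => -Complex.exp ε) (𝓝 0) (𝓝 (-1)) := by
      have h2 : Tendsto (fun ε : ℂ => -Complex.exp ε) (𝓝 0) (𝓝 (-Complex.exp 0)) :=
        (Complex.continuous_exp.tendsto 0).neg
      rwa [Complex.exp_zero] at h2
    exact (c_TP hv N m (pls ls)).tendsto.comp h1
  have hL : Tendsto (fun ε : ℝ => TP N (vN N) (-Complex.exp (ε : ℂ)) m (pls ls)) (𝓝[≠] 0)
      (𝓝 (TP N (vN N) (-1) m (pls ls))) :=
    (hJ.mono_left nhdsWithin_le_nhds).comp tendsto_real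
  -- the sum is equal to its continuation
  have hev : ∀ᶠ ε in 𝓝[≠] (0 : ℂ), ∀ x ∈ ls, ∀ i j : ℕ, i ≤ j → j < N →
      G x.1 i j ε = gdP (vN N) (-Complex.exp ε) x.1.1 i j ∧
      G x.2 i j ε = gdP (vN N) (-Complex.exp ε) x.2.1 i j := by
    have h0 : ∀ x ∈ ls, ∀ᶠ ε in 𝓝[≠] (0 : ℂ), ∀ j ∈ range N, ∀ i ∈ range (j + 1),
        G x.1 i j ε = gdP (vN N) (-Complex.exp ε) x.1.1 i j ∧
        G x.2 i j ε = gdP (vN N) (-Complex.exp ε) x.2.1 i j := by
      intro x hx
      rw [Filter.eventually_all_finset]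
      intro j hj
      rw [Filter.eventually_all_finset]
      intro i hi
      have hj' := Finset.mem_range.mp hj
      have hi' : i ≤ j := by
        have := Finset.mem_range.mp hi
        omega
      exact (hGe x.1 i j (hGD x hx).1 hi' hj').and (hGe x.2 i j (hGD x hx).2 hi' hj')
    have h1 : ∀ᶠ ε in 𝓝[≠] (0 : ℂ), ∀ x ∈ ls, ∀ j ∈ range N, ∀ i ∈ range (j + 1),
        G x.1 i j ε = gdP (vN N) (-Complex.exp ε) x.1.1 i j ∧
        G x.2 i j ε = gdP (vN N) (-Complex.exp ε) x.2.1 i j := ev_list _ _ _ h0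
    filter_upwards [h1] with ε hε x hx i j hij hj
    exact hε x hx j (Finset.mem_range.mpr hj) i (Finset.mem_range.mpr (by omega))
  set R : ℂ → ℂ := fun ε => (N : ℂ) * (kap N m ε * ∑ p ∈ range N, Ea (2 * m) N (chi N p ε) *
    (Te N G ls ε (chi N p ε) +
        He N G ls p ε (chi N p ε) * (Complex.exp (-6 * m * N * ε) - 1))) with hR
  have hK : (fun ε : ℝ => TP N (vN N) (-Complex.exp (ε : ℂ)) m (pls ls)) =ᶠ[𝓝[≠] 0]
      fun ε : ℝ => R (ε : ℂ) := by
    filter_upwards [tendsto_real.eventually hev, self_mem_nhdsWithin] with ε hε h0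
    have hε0 : ε ≠ 0 := h0
    have hn : ‖-Complex.exp (ε : ℂ)‖ = Real.exp ε := by
      rw [norm_neg, Complex.norm_exp, Complex.ofReal_re]
    have hn1 : ‖-Complex.exp (ε : ℂ)‖ ≠ 1 := by
      rw [hn]
      intro h
      exact hε0 ((Real.exp_eq_one_iff ε).mp h)
    have hl0 : -Complex.exp (ε : ℂ) ≠ 0 := neg_ne_zero.mpr (Complex.exp_ne_zero _)
    rw [generic hRt ⟨hl0, hn1⟩ (pls ls) m, sumA_eq N hN G ls m (ε : ℂ) hε]
  have hRc : ContinuousAt R 0 := right_cont hGd ls m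
  have hR' : Tendsto (fun ε : ℝ => R (ε : ℂ)) (𝓝[≠] 0) (𝓝 (R 0)) :=
    (hRc.tendsto.mono_left nhdsWithin_le_nhds).comp tendsto_real
  have hlim := tendsto_nhds_unique (hL.congr' hK) hR'
  rw [hlim]
  show (N : ℂ) * (kap N m 0 * ∑ p ∈ range N, Ea (2 * m) N (chi N p 0) *
    (Te N G ls 0 (chi N p 0) +
        He N G ls p 0 (chi N p 0) * (Complex.exp (-6 * m * N * 0) - 1))) = _
  have hsum : ∑ p ∈ range N, Ea (2 * m) N (chi N p 0) * (Te N G ls 0 (chi N p 0) +
        He N G ls p 0 (chi N p 0) * (Complex.exp (-6 * m * N * 0) - 1)) =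
      CC ls * EA N (vls ls) m := by
    unfold EA
    rw [Finset.mul_sum]
    refine Finset.sum_congr rfl fun p _ => ?_
    rw [chi_zero, mul_zero, Complex.exp_zero, sub_self, mul_zero, add_zero,
      Te_zero hN hG0]
    ring
  have hkap : kap N m 0 = vN N ^ (4 * m) := by
    unfold kap
    rw [_root_.zpow_mul]
    congr 1
    have : (-6 * (N : ℂ) * 0 + 9 * Complex.I * N * 0 ^ 2 / (2 * π)) = 0 := by ring
    rw [this, Complex.exp_zero, mul_one]
    norm_cast
  rw [hsum, hkap]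

/-! ### The matrices and the operators -/

theorem dl3_t3 {N : ℕ} (x y z : Fin N) : dl3 x y z ∈ T3 N := by
  intro a b c h
  unfold dl3
  rw [if_neg]
  rintro ⟨h1, h2, h3⟩
  have i1 := x.2
  have i2 := y.2
  have i3 := z.2
  omega

theorem rs_dl3 {N : ℕ} (s : Fin 3 → Fin N) :
    Pool.Agent.Y195.CB.rs N (dl3 (s 0) (s 1) (s 2)) = Pi.single s (1 : ℂ) := by
  funext t
  show (if (t 0 : ℕ) = s 0 ∧ (t 1 : ℕ) = s 1 ∧ (t 2 : ℕ) = s 2 then (1 : ℂ) else 0) = _
  by_cases ht : t = s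
  · rw [ht, Pi.single_eq_same, if_pos ⟨rfl, rfl, rfl⟩]
  · rw [Pi.single_eq_of_ne ht, if_neg]
    rintro ⟨h1, h2, h3⟩
    apply ht
    funext i
    fin_cases i
    · exact Fin.ext h1
    · exact Fin.ext h2
    · exact Fin.ext h3

/-- triples -/
def e3 (N : ℕ) : (Fin 3 → Fin N) ≃ Fin N × Fin N × Fin N where
  toFun s := (s 0, s 1, s 2)
  invFun p := ![p.1, p.2.1, p.2.2]
  left_inv s := by
    funext i
    fin_cases i <;> rfl
  right_inv p := rfl

theorem JA_TP (N : ℕ) (ts : List (Tb × Tb)) (ps : List (Polynomial ℂ × Polynomial ℂ)) (m : ℤ)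
    (hN2 : 2 ≤ N)
    (hts : List.Forall₂ (fun t p =>
      op N (vN N) t.1 = mx N (Polynomial.aeval (cas (vN N) (-1)) p.1) ∧
      op N (vN N) t.2 = mx N (Polynomial.aeval (cas (vN N) (-1)) p.2)) ts ps) :
    JA ts m N (vN N) = TP N (vN N) (-1) m ps := by
  have hR := Pool.Agent.Y195.CB.rtv N hN2
  obtain ⟨hs, hn, -, -, hc, -⟩ := Pool.Agent.Y807.CB.sigt N (vN N) (-1) hR (by norm_num)
  have hm : ∀ g ∈ ftw m, g.1 < 2 := fun g hg =>
    Pool.Agent.Y448.CB.letters_lt m [] g (List.mem_append_left _ hg)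
  have key : ∀ s : Fin 3 → Fin N, (rep (crossP N (vN N)) (crossN N (vN N)) 3 (ftw m) *
      opD N (vN N) ts) s s =
      (fullt (vN N) (-1) m * opP (vN N) (-1) ps) (dl3 (s 0) (s 1) (s 2)) (s 0) (s 1) (s 2) := by
    intro s
    obtain ⟨h1, h2⟩ := Pool.Agent.Y884.DR.opD_opP N (vN N) (vN N) (-1) hc ts ps hts _
      (dl3_t3 (s 0) (s 1) (s 2))
    have h3 := (Pool.Agent.Y195.CB.rep_opw N (vN N) (-1) hs hn (ftw m) hm _ h2).1
    rw [Pool.Agent.Y195.CB.mx_sg N _ hR, Pool.Agent.Y195.CB.mx_sn N _ hR, ← h1,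
      Matrix.mulVec_mulVec, rs_dl3 s, Matrix.mulVec_single_one,
      Pool.Agent.Y448.CB.opw_ftw] at h3
    exact congrFun h3 s
  unfold JA Matrix.trace
  have h4 : ∑ s : Fin 3 → Fin N, (rep (crossP N (vN N)) (crossN N (vN N)) 3 (ftw m) *
      opD N (vN N) ts).diag s = ∑ p : Fin N × Fin N × Fin N,
      (fullt (vN N) (-1) m * opP (vN N) (-1) ps) (dl3 p.1 p.2.1 p.2.2) p.1 p.2.1 p.2.2 :=
    Fintype.sum_equiv (e3 N) _ _ fun s => key s
  rw [h4, Fintype.sum_prod_type]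
  unfold TP
  rw [← Fin.sum_univ_eq_sum_range (fun x => ∑ y ∈ range N, ∑ z ∈ range N,
    (fullt (vN N) (-1) m * opP (vN N) (-1) ps) (dl3 x y z) x y z) N]
  refine sum_congr rfl fun x _ => ?_
  rw [Fintype.sum_prod_type, ← Fin.sum_univ_eq_sum_range (fun y => ∑ z ∈ range N,
    (fullt (vN N) (-1) m * opP (vN N) (-1) ps) (dl3 x y z) x y z) N]
  refine sum_congr rfl fun y _ => ?_
  rw [← Fin.sum_univ_eq_sum_range (fun z =>
    (fullt (vN N) (-1) m * opP (vN N) (-1) ps) (dl3 x y z) x y z) N]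

/-! ### The trees -/

/-- the divided differences, with the constant -/
theorem gdp {N : ℕ} (hN : 2 ≤ N) (t : Tb) (ht : t.bl = false) :
    GDP N (Pool.Agent.Y624.DR.PL N t)
      (fun i j => (Complex.I * Pool.Agent.TH639.J28.Kt N t) * cV N (tv t) i j) := by
  intro i j hij hj
  have hN0 : 0 < N := by omega
  refine ⟨fun ε => Pool.Agent.Y624.DR.DD N (Icc i j).card (Lagrange.nodal (Icc i j)
    (uu (vN N) (-Complex.exp ε))) (Pool.Agent.Y624.DR.PL N t), ?_, ?_, ?_⟩
  · refine Pool.Agent.Y624.DR.DD_diff (Pool.Agent.Y624.DR.PD.prod fun k _ => ?_) _ _ _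
    have e : (fun ε => uu (vN N) (-Complex.exp ε) k) =
        fun ε => 2 * Complex.cos (Pool.Agent.Y686.CB.zn N ε k) := by
      funext ε
      exact Pool.Agent.Y686.CB.uu_eq hN0 ε k
    rw [e]
    unfold Pool.Agent.Y686.CB.zn
    fun_prop
  · simp only [Complex.exp_zero]
    exact Pool.Agent.Y624.DR.value hN t ht hij hj
  · filter_upwards [Pool.Agent.Y686.CB.small_ev hN0, self_mem_nhdsWithin] with ε h2 h3
    have h3' : ε ≠ 0 := h3
    have hinj : Set.InjOn (uu (vN N) (-Complex.exp ε)) (Icc i j) := by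
      intro k hk m hm h
      rw [Finset.mem_coe, Finset.mem_Icc] at hk hm
      rw [Pool.Agent.Y686.CB.uu_eq hN0, Pool.Agent.Y686.CB.uu_eq hN0] at h
      exact Pool.Agent.Y686.CB.zn_inj hN0 h3' h2 (by omega) (by omega)
        (mul_left_cancel₀ two_ne_zero h)
    have hP : (Pool.Agent.Y624.DR.PL N t).natDegree < N := Pool.Agent.Y624.DR.NP_deg hN0 _ _
    exact (Pool.Agent.Y624.DR.DD_eq (Finset.nonempty_Icc.2 hij) hinj hP).symm

/-- the data of a tree -/
noncomputable def pv (N : ℕ) (t : Tb) : PV :=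
  (Pool.Agent.Y624.DR.PL N t, tv t, Complex.I * Pool.Agent.TH639.J28.Kt N t)

theorem kp_ne (N : ℕ) : kp N ≠ 0 := by
  rw [← Pool.Agent.Y448.PH.Cf_kp]
  exact Pool.Agent.Y686.CB.Cf_ne N 0

theorem kb_ne (N : ℕ) : kb N ≠ 0 := Complex.exp_ne_zero _

/-- the product of the constants -/
theorem prod_c (N : ℕ) (ts : List (Tb × Tb)) :
    CC (ts.map fun p => (pv N p.1, pv N p.2)) = (-1) ^ ts.length * kp N ^ wsl ts *
      kb N ^ nbl ts * ((-1) ^ (N - 1) * (Complex.I * N ^ 2 / (2 * π))) ^ nel ts := by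
  induction ts with
  | nil => simp [CC, wsl, nbl, nel]
  | cons p ts ih =>
    have e1 : CC ((p :: ts).map fun p => (pv N p.1, pv N p.2)) =
        (Complex.I * Pool.Agent.TH639.J28.Kt N p.1 *
          (Complex.I * Pool.Agent.TH639.J28.Kt N p.2)) *
          CC (ts.map fun p => (pv N p.1, pv N p.2)) := by
      unfold CC
      rw [List.map_cons, List.map_cons, List.prod_cons]
      rfl
    have e2 : wsl (p :: ts) = p.1.ws + p.2.ws + wsl ts := by
      unfold wsl
      rw [List.map_cons, List.sum_cons]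
    have e3 : nbl (p :: ts) = p.1.nb + p.2.nb + nbl ts := by
      unfold nbl
      rw [List.map_cons, List.sum_cons]
    have e4 : nel (p :: ts) = p.1.ne + p.2.ne + nel ts := by
      unfold nel
      rw [List.map_cons, List.sum_cons]
    rw [e1, ih, e2, e3, e4, zpow_add₀ (kp_ne N), zpow_add₀ (kp_ne N), List.length_cons, pow_succ]
    unfold Pool.Agent.TH639.J28.Kt
    have hI : Complex.I ^ 2 = -1 := Complex.I_sq
    rw [pow_add, pow_add, pow_add, pow_add]
    linear_combination (kp N ^ p.1.ws * kb N ^ p.1.nb *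
      ((-1) ^ (N - 1) * (Complex.I * (N : ℂ) ^ 2 / (2 * π))) ^ p.1.ne * (kp N ^ p.2.ws *
      kb N ^ p.2.nb * ((-1) ^ (N - 1) * (Complex.I * (N : ℂ) ^ 2 / (2 * π))) ^ p.2.ne) *
      ((-1) ^ ts.length * kp N ^ wsl ts * kb N ^ nbl ts *
      ((-1) ^ (N - 1) * (Complex.I * (N : ℂ) ^ 2 / (2 * π))) ^ nel ts)) * hI

/-- AXPD -/
theorem t_axpd : S_AXPD := by
  intro N ts m hN _ hno
  set ls : List (PV × PV) := ts.map fun p => (pv N p.1, pv N p.2) with hls
  have h1 := axP N ls m hN (by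
    intro d hd
    obtain ⟨p, hp, rfl⟩ := List.mem_map.1 hd
    exact ⟨gdp hN p.1 (hno p hp).1, gdp hN p.2 (hno p hp).2⟩)
  have h2 : JA ts m N (vN N) = TP N (vN N) (-1) m (pls ls) := by
    apply JA_TP N ts _ m hN
    unfold pls
    rw [hls, List.map_map, List.forall₂_map_right_iff, List.forall₂_same]
    intro p hp
    exact ⟨(Pool.Agent.Y624.DR.op_PL hN p.1).symm, (Pool.Agent.Y624.DR.op_PL hN p.2).symm⟩
  have h3 : vls ls = tvl ts := by
    unfold vls tvl
    rw [hls, List.map_map]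
    rfl
  rw [h2, h1, h3, hls, prod_c]
  unfold pzD
  ring

end Pool.Agent.Y100.DX
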